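import Pool.Agent.Helper31.LQ.Goals

/-!
# LQ-PSI: the sublinear functions of a body in normal position
-/

open MeasureTheory Set
open scoped ENNReal Matrix Pointwise Topology
open Pool.Agent.Helper47.AQ
open Pool.Agent.Helper31.LQ

noncomputable section

namespace Pool.Agent.Helper5.LQ

theorem ell_add {n : ℕ} (j : Fin (n + 1)) (s t : Fin (n + 1) → ℝ) :
    ell j (s + t) = ell j s + ell j t := by
  simp only [ell, Pi.add_apply, Finset.sum_add_distrib]
  ring

theorem ell_smul {n : ℕ} (j : Fin (n + 1)) (c : ℝ) (t : Fin (n + 1) → ℝ) :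
    ell j (c • t) = c * ell j t := by
  simp only [ell, Pi.smul_apply, smul_eq_mul, ← Finset.mul_sum]
  ring

theorem pr_add {n : ℕ} (s t : Fin (n + 1) → ℝ) : pr (s + t) = pr s + pr t := by
  funext l
  simp only [pr, Pi.add_apply]
  ring

theorem pr_smul {n : ℕ} (c : ℝ) (t : Fin (n + 1) → ℝ) : pr (c • t) = c • pr t := by
  funext l
  simp only [pr, Pi.smul_apply, smul_eq_mul]
  ring

theorem pr_neg {n : ℕ} (t : Fin (n + 1) → ℝ) : pr (-t) = -pr t := by
  funext l
  simp only [pr, Pi.neg_apply]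
  ring

theorem li_smul {n : ℕ} (c : ℝ) (x : Fin n → ℝ) : li (c • x) = c • li x := by
  funext o
  refine Fin.lastCases ?_ (fun l => ?_) o
  · simp [li]
  · simp [li]

theorem continuous_pr {n : ℕ} : Continuous (pr : (Fin (n + 1) → ℝ) → Fin n → ℝ) := by
  refine continuous_pi fun l => ?_
  exact (continuous_apply _).sub (continuous_apply _)

theorem continuous_ell {n : ℕ} (j : Fin (n + 1)) :
    Continuous (ell j : (Fin (n + 1) → ℝ) → ℝ) := by
  unfold ell
  exact (continuous_finsetSum _ fun o _ => continuous_apply o).sub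
    (continuous_const.mul (continuous_apply j))

/-- the interior -/
theorem zero_mem_interior (hD : D0B) {n : ℕ} (hn : 1 ≤ n) {K : Set (Fin n → ℝ)} {τ : ℝ}
    (hK : Pos n K τ) : (0 : Fin n → ℝ) ∈ interior K := by
  obtain ⟨h1, -, -, h4, -⟩ := hD n hn
  have hc : (-(1 / (n : ℝ))) ≠ 0 := by
    have : (0 : ℝ) < n := by exact_mod_cast hn
    have : (0 : ℝ) < 1 / (n : ℝ) := by positivity
    linarith
  have hsub : (-(1 / (n : ℝ))) • D0 n ⊆ K := by
    rw [h1, ← convexHull_smul]
    refine convexHull_min ?_ hK.conv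
    rintro _ ⟨_, ⟨o, rfl⟩, rfl⟩
    exact hK.cen o
  have h5 : (0 : Fin n → ℝ) ∈ interior ((-(1 / (n : ℝ))) • D0 n) := by
    rw [interior_smul₀ hc]
    exact ⟨0, h4, smul_zero _⟩
  exact interior_mono hsub h5

theorem gPSI (hCO : CO) (hD : D0B) : Pool.Agent.Helper31.LQ.PSI := by
  intro n hn
  have hn0 : (0 : ℝ) < n := by exact_mod_cast hn
  refine ⟨((n : ℝ) + 1) * (n + 2), by positivity, ?_⟩
  intro K τ hK
  obtain ⟨c1, c2, c3, -, -, -, -, -, c9, c10, -, -, -⟩ := hCO n 0 (fun _ => 0)
  have h0 : (0 : Fin n → ℝ) ∈ interior K := zero_mem_interior hD hn hK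
  have hnhds : K ∈ 𝓝 (0 : Fin n → ℝ) := mem_interior_iff_mem_nhds.1 h0
  have habs : Absorbent ℝ K := absorbent_nhds_zero hnhds
  have hcont : Continuous (gauge K) := continuous_gauge hK.conv hnhds
  -- the last statement
  have hlow : ∀ j x, ell j (li x) ≤ gauge K x := by
    intro j x
    rw [gauge]
    refine le_csInf habs.gauge_set_nonempty ?_
    rintro r ⟨hr, k, hk, hkx⟩
    have hkx' : r • k = x := hkx
    rw [← hkx', li_smul, ell_smul]
    have h1 := hK.sub hk j
    nlinarith
  have hnn : ∀ j t, 0 ≤ psi K j t := by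
    intro j t
    have h1 := hlow j (pr t)
    rw [c10] at h1
    rw [psi]
    linarith
  -- the points `-v_o`
  have hneg : ∀ o : Fin (n + 1), gauge K (-ver o) ≤ n := by
    intro o
    have h1 := gauge_le_one_of_mem (hK.cen o)
    have h2 : -ver o = (n : ℝ) • ((-(1 / (n : ℝ))) • ver o) := by
      rw [smul_smul]
      have : (n : ℝ) * -(1 / (n : ℝ)) = -1 := by field_simp
      rw [this, neg_one_smul]
    rw [h2, gauge_smul_of_nonneg hn0.le, smul_eq_mul]
    nlinarith
  -- sums
  have hsum : ∀ (c : Fin (n + 1) → ℝ) (w : Fin (n + 1) → Fin n → ℝ) (M : ℝ),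
      (∀ o, 0 ≤ c o) → (∀ o, gauge K (w o) ≤ M) →
      gauge K (∑ o, c o • w o) ≤ M * ∑ o, c o := by
    intro c w M hc hw
    refine (gauge_sum_le hK.conv habs _ _).trans ?_
    rw [Finset.mul_sum]
    refine Finset.sum_le_sum fun o _ => ?_
    rw [gauge_smul_of_nonneg (hc o), smul_eq_mul, mul_comm]
    exact mul_le_mul_of_nonneg_right (hw o) (hc o)
  refine ⟨⟨hK.conv, hK.comp, ⟨0, h0⟩⟩, h0, hcont, ⟨?_, ?_, ?_⟩, ?_, ?_, hlow⟩
  · intro j
    refine ⟨?_, hnn j, ?_, ?_⟩
    · exact (hcont.comp continuous_pr).sub (continuous_ell j)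
    · intro s t
      have h1 := gauge_add_le hK.conv habs (pr s) (pr t)
      simp only [psi, pr_add, ell_add]
      linarith
    · intro c hc t
      simp only [psi, pr_smul, ell_smul, gauge_smul_of_nonneg hc, smul_eq_mul]
      ring
  · intro j t c
    simp only [psi]
    rw [c2, c9]
  · intro j
    refine le_antisymm ?_ (hnn j _)
    have h1 : pr (-(Pi.single j 1 : Fin (n + 1) → ℝ)) = -ver j := by
      rw [pr_neg]
      rfl
    have h2 : ell j (-(Pi.single j 1 : Fin (n + 1) → ℝ)) = n := by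
      simp only [ell, Pi.neg_apply, Finset.sum_neg_distrib, Finset.sum_pi_single',
        Finset.mem_univ, if_true, Pi.single_eq_same]
      ring
    rw [psi, h1, h2]
    linarith [hneg j]
  · intro j t
    obtain ⟨μ, hμ⟩ : ∃ μ, μ = ∑ o, |t o| := ⟨_, rfl⟩
    have hμo : ∀ o, |t o| ≤ μ := by
      intro o
      rw [hμ]
      exact Finset.single_le_sum (f := fun o => |t o|) (fun i _ => abs_nonneg _)
        (Finset.mem_univ o)
    have hμ0 : 0 ≤ μ := (abs_nonneg _).trans (hμo j)
    have hS : |∑ o, t o| ≤ μ := by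
      rw [hμ]
      exact Finset.abs_sum_le_sum_abs _ _
    have e1 : pr t = ∑ o, (μ - t o) • (-ver o) := by
      have h1 : pr t = -pr ((fun o => μ - t o) : Fin (n + 1) → ℝ) := by
        rw [← pr_neg, ← c2 t (-μ)]
        congr 1
        funext o
        simp only [Pi.add_apply, Pi.neg_apply]
        ring
      rw [h1, c3, ← Finset.sum_neg_distrib]
      refine Finset.sum_congr rfl fun o _ => ?_
      rw [smul_neg]
    have h1 : gauge K (pr t) ≤ n * ∑ o, (μ - t o) := by
      rw [e1]
      exact hsum _ _ _ (fun o => by linarith [le_abs_self (t o), hμo o]) hneg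
    have h2 : ∑ o : Fin (n + 1), (μ - t o) = (n + 1) * μ - ∑ o, t o := by
      rw [Finset.sum_sub_distrib]
      simp
    have h3 := abs_le.1 hS
    have h4 := abs_le.1 (hμo j)
    rw [h2] at h1
    rw [psi, ell, ← hμ]
    nlinarith
  · intro j t ht htj
    have h1 : gauge K (pr t) ≤ (1 + τ) * ∑ o, t o := by
      rw [c3]
      exact hsum _ _ _ ht hK.tip
    rw [psi, ell, htj]
    linarith

end Pool.Agent.Helper5.LQ
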