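import Pool.Agent.Helper31.LQ.Goals

/-!
# LQ-PW: from points to gauges
-/

open MeasureTheory Set
open scoped ENNReal Matrix Pointwise Topology
open Pool.Agent.Helper47.AQ
open Pool.Agent.Helper31.LQ

noncomputable section

namespace Pool.Agent.Helper5.LQ

theorem lin_smul {n d : ℕ} (Y : Fin n → Fin d → ℝ) (c : ℝ) (x : Fin n → ℝ) :
    lin Y (c • x) = c • lin Y x := by
  funext e
  simp only [lin, Pi.smul_apply, smul_eq_mul, Finset.mul_sum, mul_assoc]

theorem gPW (hX : PWX) (hP : PSI) : Pool.Agent.Helper31.LQ.PW := by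
  intro n d hd hdn R hR
  obtain ⟨M, M', hM, hMM, h⟩ := hX n d hd hdn R hR
  refine ⟨M, M', hM, hMM, ?_⟩
  intro Y hY π hπ K τ hK t ht
  obtain ⟨C, hC, hC2⟩ := hP n (by omega)
  obtain ⟨hb, h0, -, -, -, -, -⟩ := hC2 K τ hK
  have habs : Absorbent ℝ K := absorbent_nhds_zero (mem_interior_iff_mem_nhds.1 h0)
  obtain ⟨z, hz⟩ : ∃ z, z = lin Y (pr (emb d π t)) := ⟨_, rfl⟩
  have hne : {r : ℝ | 0 < r ∧ z ∈ r • (lin Y '' K)}.Nonempty := by
    obtain ⟨r, hr, k, hk, hkx⟩ := habs.gauge_set_nonempty (x := pr (emb d π t))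
    refine ⟨r, hr, lin Y k, ⟨k, hk, rfl⟩, ?_⟩
    have hkx' : r • k = pr (emb d π t) := hkx
    rw [hz, ← hkx', lin_smul]
  have key : ∀ r : ℝ, gauge (lin Y '' K) z < r → ∃ x, lin Y x = z ∧ gauge K x ≤ r := by
    intro r hr
    rw [gauge] at hr
    obtain ⟨r', ⟨hr', _, ⟨k, hk, rfl⟩, hk2⟩, hr2⟩ := exists_lt_of_csInf_lt hne hr
    have hk2' : r' • lin Y k = z := hk2
    refine ⟨r' • k, ?_, ?_⟩
    · rw [lin_smul, hk2']
    · exact (gauge_le_of_mem hr'.le ⟨k, hk, rfl⟩).trans hr2.le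
  have hM'0 : 0 < M' := by linarith
  rw [Ups, ← hz]
  constructor
  · refine le_of_forall_pos_le_add fun ε hε => ?_
    obtain ⟨x, hx1, hx2⟩ := key (gauge (lin Y '' K) z + ε) (by linarith)
    have h1 := (h Y hY π hπ K τ hK t ht x (hx1.trans hz)).1
    linarith
  · refine le_of_forall_pos_le_add fun ε hε => ?_
    have hε' : 0 < ε / M' := by positivity
    obtain ⟨x, hx1, hx2⟩ := key (gauge (lin Y '' K) z + ε / M') (by linarith)
    have h1 := (h Y hY π hπ K τ hK t ht x (hx1.trans hz)).2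
    have h2 : M' * (gauge K x - ∑ a, t a) ≤
        M' * (gauge (lin Y '' K) z + ε / M' - ∑ a, t a) := by
      refine mul_le_mul_of_nonneg_left ?_ hM'0.le
      linarith
    have h3 : M' * (gauge (lin Y '' K) z + ε / M' - ∑ a, t a) =
        M' * (gauge (lin Y '' K) z - ∑ a, t a) + ε := by
      field_simp
      ring
    linarith

end Pool.Agent.Helper5.LQ
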